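import Pool.Agent.Helper32.CYC.Row2
import Pool.Agent.Helper99.CYC.EndDefs

/-!
# LinA: the two block relation with one moved label, sizes `(r, r)`
-/

set_option autoImplicit false

namespace Pool.Agent.Helper32.CYC

open Finset Polynomial Pool.Agent.Helper10.CYC Pool.Agent.Helper99.CYC

section

variable {R : Type} [CommRing R] {s l : ℕ}

lemma append_eq_dS (f : R[X]) (u : Fin s → R[X]) (v : Fin l → R[X]) :
    dd f (Fin.append u v) = dS f finSumFinEquiv u v := by
  unfold dS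
  congr 1
  funext j
  refine Fin.addCases (fun i => ?_) (fun i => ?_) j
  · rw [Fin.append_left]; simp
  · rw [Fin.append_right]; simp

/-- The squares. -/
lemma PSG_sq [CharP R 2] (f : R[X]) (p q : R[X]) (c0 : ℕ) :
    PSG f (fun i : Fin s => p * X ^ (i : ℕ)) (fun j : Fin l => q * X ^ (j : ℕ))
      (fun i => X ^ (c0 + (i : ℕ))) (fun j => X ^ (j : ℕ))
      = dd f (Fin.append (fun i : Fin s => p * X ^ c0 * X ^ (2 * (i : ℕ)))
        (fun j : Fin l => q * X ^ (2 * (j : ℕ)))) := by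
  unfold PSG
  have h1 : ∀ σ : Equiv.Perm (Fin s), ∑ τ : Equiv.Perm (Fin l),
      dd f (Fin.append (fun i => p * X ^ (i : ℕ) * X ^ (c0 + ((σ i : Fin s) : ℕ)))
        (fun j => q * X ^ (j : ℕ) * X ^ ((τ j : Fin l) : ℕ)))
      = dS f finSumFinEquiv (fun i : Fin s => p * X ^ c0 * X ^ ((i : ℕ) + ((σ i : Fin s) : ℕ)))
        (fun j : Fin l => q * X ^ (2 * (j : ℕ))) := by
    intro σ
    rw [← sq_lemma l (fun E => dS f finSumFinEquiv
      (fun i => p * X ^ c0 * X ^ ((i : ℕ) + ((σ i : Fin s) : ℕ))) (fun j => q * X ^ (E j)))]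
    · refine sum_congr rfl (fun τ _ => ?_)
      rw [append_eq_dS]
      congr 1
      · funext i; ring
      · funext j; ring
    · intro E τ
      exact dS_permJ f finSumFinEquiv _ (fun j => q * X ^ (E j)) τ
    · intro E i j hij hE
      refine dS_rep f _ _ _ (Sum.inr i) (Sum.inr j) (fun h => hij (Sum.inr_injective h)) ?_
      simp only [Sum.elim_inr, hE]
  rw [sum_congr rfl (fun σ _ => h1 σ), append_eq_dS]
  refine sq_lemma s (fun E => dS f finSumFinEquiv
      (fun i => p * X ^ c0 * X ^ (E i)) (fun j : Fin l => q * X ^ (2 * (j : ℕ)))) ?_ ?_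
  · intro E τ
    exact dS_permS f finSumFinEquiv (fun i => p * X ^ c0 * X ^ (E i)) _ τ
  · intro E i j hij hE
    refine dS_rep f _ _ _ (Sum.inl i) (Sum.inl j) (fun h => hij (Sum.inl_injective h)) ?_
    simp only [Sum.elim_inl, hE]

end

section fld

variable {K : Type} [Field K] [CharP K 2]

lemma interp {r : ℕ} (d : Fin r → K) (A : K → K) : ∃ P : K[X], ∀ i, P.eval (d i ^ 2) = A (d i) := by
  classical
  set s : Finset K := univ.image d with hs
  have hinj : Set.InjOn (fun t : K => t ^ 2) (s : Set K) := by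
    intro a _ b _ hab
    exact CharTwo.sq_injective hab
  refine ⟨Lagrange.interpolate s (fun t : K => t ^ 2) A, fun i => ?_⟩
  have hi : d i ∈ s := by rw [hs]; exact Finset.mem_image_of_mem _ (mem_univ i)
  exact Lagrange.eval_interpolate_at_node A hinj hi

/-- `f = S(X^2)`. -/
lemma sq_prod {r : ℕ} (d : Fin r → K) :
    (∏ i, (X - C (d i))) ^ 2 = ex (∏ i, (X - C (d i ^ 2))) := by
  rw [ex, map_prod, ← prod_pow]
  refine prod_congr rfl (fun i _ => ?_)
  rw [map_sub, expand_X, expand_C, CharTwo.sub_eq_add, CharTwo.add_sq, map_pow,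
    CharTwo.sub_eq_add]

omit [CharP K 2] in
lemma map_ex {A : Type} [CommRing A] (φ : K →+* A) (S : K[X]) :
    (ex S).map φ = ex (S.map φ) := by
  rw [ex, ex, Polynomial.map_expand]

omit [CharP K 2] in
/-- The norm of `1 + T X` modulo `f`. -/
lemma norm_hT {r : ℕ} (d : Fin r → K) :
    dd (((∏ i, (X - C (d i))) ^ 2).map (C : K →+* K[X]))
      (fun j : Fin (r + r) => hT K * X ^ (j : ℕ)) = EE d ^ 2 := by
  have h1 : ((∏ i, (X - C (d i))) ^ 2).map (C : K →+* K[X])
      = ∏ i : Fin (r + r), (X - C (Fin.append (fun i => (C (d i) : K[X]))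
        (fun i => (C (d i) : K[X])) i)) := by
    rw [Fin.prod_univ_add, sq, Polynomial.map_mul, Polynomial.map_prod]
    congr 1
    · refine prod_congr rfl (fun i _ => ?_)
      rw [Fin.append_left]; simp
    · refine prod_congr rfl (fun i _ => ?_)
      rw [Fin.append_right]; simp
  rw [h1, dd_norm, Fin.prod_univ_add, sq, EE]
  congr 1
  · refine prod_congr rfl (fun i _ => ?_)
    rw [Fin.append_left, hT, eval_add, eval_mul, eval_C, eval_X, eval_one, mul_comm]
  · refine prod_congr rfl (fun i _ => ?_)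
    rw [Fin.append_right, hT, eval_add, eval_mul, eval_C, eval_X, eval_one, mul_comm]

/-- The value of the row form on the test functions. -/
lemma value_A {r : ℕ} (d : Fin r → K) (hd0 : ∀ i, d i ≠ 0) (c0 : ℕ) (θ : K → K) :
    ∃ ν : K[X], PSG (((∏ i, (X - C (d i))) ^ 2).map (C : K →+* K[X]))
      (fun i : Fin r => hT K * (ν * X ^ (i : ℕ)).map C)
      (fun j : Fin r => (X ^ (j : ℕ) : K[X]).map C)
      (fun i => X ^ (c0 + (i : ℕ))) (fun j => X ^ (j : ℕ)) = EE (fun i => θ (d i)) := by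
  obtain ⟨P, hP⟩ := interp d (fun t => θ t * ((t ^ 2) ^ c0)⁻¹)
  obtain ⟨Q, hQ⟩ := interp d (fun t => ((t ^ 2) ^ c0)⁻¹)
  refine ⟨(ex P + X * ex Q) * X ^ c0, ?_⟩
  have h1 : (fun i : Fin r => hT K * (((ex P + X * ex Q) * X ^ c0 * X ^ (i : ℕ)).map C))
      = fun i : Fin r => (hT K * ((ex P + X * ex Q).map C) * X ^ c0) * X ^ (i : ℕ) := by
    funext i
    rw [Polynomial.map_mul, Polynomial.map_mul, Polynomial.map_pow, Polynomial.map_pow,
      Polynomial.map_X]
    ring
  have h2 : (fun j : Fin r => (X ^ (j : ℕ) : K[X]).map (C : K →+* K[X]))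
      = fun j : Fin r => (1 : K[X][X]) * X ^ (j : ℕ) := by
    funext j
    simp
  rw [h1, h2, PSG_sq]
  set S : K[X] := ∏ i, (X - C (d i ^ 2)) with hS
  have hSm : (S.map (C : K →+* K[X])).Monic :=
    (monic_prod_of_monic _ _ fun i _ => monic_X_sub_C _).map _
  set P1 : K[X][X] := X ^ c0 * (P.map C + C X * X * Q.map C) with hP1
  set Q1 : K[X][X] := X ^ c0 * (Q.map C + C X * P.map C) with hQ1
  have h3 : (fun i : Fin r => hT K * ((ex P + X * ex Q).map C) * X ^ c0 * X ^ c0 *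
      X ^ (2 * (i : ℕ))) = fun i : Fin r => ex (P1 * X ^ (i : ℕ)) + X * ex (Q1 * X ^ (i : ℕ)) := by
    funext i
    rw [Polynomial.map_add, Polynomial.map_mul, Polynomial.map_X, map_ex, map_ex, hP1, hQ1, hT]
    simp only [ex, map_mul, map_add, map_pow, expand_X, expand_C]
    ring
  have h4 : (fun j : Fin r => (1 : K[X][X]) * X ^ (2 * (j : ℕ)))
      = fun j : Fin r => ex ((X : K[X][X]) ^ (j : ℕ)) := by
    funext j
    rw [ex, map_pow, expand_X, one_mul, pow_mul]
  rw [h3, h4, sq_prod, map_ex, dd_block hSm]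
  have h5 : S.map (C : K →+* K[X]) = ∏ i, (X - C (C (d i ^ 2))) := by
    rw [hS, Polynomial.map_prod]
    refine prod_congr rfl (fun i _ => ?_)
    simp
  have h6 : (S.map (C : K →+* K[X])).natDegree = r := by
    rw [h5, natDegree_prod_of_monic _ _ (fun i _ => monic_X_sub_C _)]
    simp only [natDegree_X_sub_C, sum_const, card_univ, Fintype.card_fin, smul_eq_mul, mul_one]
  rw [Helper89.CYC.dd_basis hSm h6, mul_one, h5, dd_norm, EE]
  refine prod_congr rfl (fun i _ => ?_)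
  have h7 : ((d i) ^ 2) ^ c0 * (((d i) ^ 2) ^ c0)⁻¹ = 1 :=
    mul_inv_cancel₀ (pow_ne_zero _ (pow_ne_zero _ (hd0 i)))
  have h8 : eval (C (d i ^ 2)) Q1 = C (((d i) ^ 2) ^ c0) * (C (Q.eval (d i ^ 2))
      + X * C (P.eval (d i ^ 2))) := by
    rw [hQ1]
    simp only [eval_mul, eval_add, eval_pow, eval_X, eval_C, eval_map, map_pow,
      ← Polynomial.eval₂_at_apply]
  rw [h8, hP, hQ]
  have h9 : (C ((d i ^ 2) ^ c0) : K[X]) * C (((d i ^ 2) ^ c0)⁻¹) = 1 := by
    rw [← C_mul, h7, C_1]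
  rw [C_mul]
  linear_combination (1 + X * C (θ (d i))) * h9

omit [CharP K 2] in
lemma EE_natDegree {r : ℕ} (d : Fin r → K) : (EE d).natDegree ≤ r := by
  unfold EE
  refine (natDegree_prod_le _ _).trans ?_
  refine (sum_le_sum (g := fun _ => 1) (fun i _ => ?_)).trans (by simp)
  refine (natDegree_add_le _ _).trans ?_
  rw [natDegree_one]
  exact max_le (Nat.zero_le _) ((natDegree_C_mul_le _ _).trans natDegree_X_le)

omit [CharP K 2] in
lemma EE_coeff_zero {r : ℕ} (d : Fin r → K) : (EE d).coeff 0 = 1 := by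
  unfold EE
  rw [coeff_zero_prod]
  refine prod_eq_one (fun i _ => ?_)
  simp

omit [CharP K 2] in
/-- Coefficients of a quotient. -/
lemma coeff_quot {r : ℕ} (d : Fin r → K) (B : K[X]) (m : ℕ) (hB : B.natDegree ≤ m) (n : ℕ)
    (hn : m ≤ n) (c : ℕ → K)
    (h : ((EE d ^ 2 : K[X]) : PowerSeries K) * PowerSeries.mk c = (B : PowerSeries K)) :
    ∑ i ∈ range (m + 1), hf d (n - i) * B.coeff i = c n := by
  have h0 : PowerSeries.constantCoeff ((EE d ^ 2 : K[X]) : PowerSeries K) ≠ 0 := by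
    rw [← PowerSeries.coeff_zero_eq_constantCoeff_apply, Polynomial.coeff_coe, sq,
      mul_coeff_zero, EE_coeff_zero]
    simp
  have h1 : PowerSeries.mk c = ((EE d ^ 2 : K[X]) : PowerSeries K)⁻¹ * (B : PowerSeries K) := by
    rw [← h, ← mul_assoc, PowerSeries.inv_mul_cancel _ h0, one_mul]
  have h2 := congrArg (PowerSeries.coeff n) h1
  rw [PowerSeries.coeff_mk, mul_comm, PowerSeries.coeff_mul,
    Finset.Nat.sum_antidiagonal_eq_sum_range_succ_mk] at h2
  rw [h2]
  symm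
  rw [← Finset.sum_subset (s₁ := range (m + 1)) (s₂ := range n.succ)]
  · refine sum_congr rfl (fun i _ => ?_)
    rw [hf, Polynomial.coeff_coe, mul_comm]
  · intro i hi
    rw [mem_range] at hi ⊢
    omega
  · intro i _ hi
    rw [mem_range] at hi
    simp only [Polynomial.coeff_coe]
    rw [coeff_eq_zero_of_natDegree_lt (by omega), zero_mul]

/-- **LinA.** -/
theorem linA {r' : ℕ} (d : Fin (r' + 1) → K) (hd0 : ∀ i, d i ≠ 0) (c0 n : ℕ)
    (hn : r' + 1 ≤ n)
    (H : ∀ (a b : Fin (r' + 1) → K[X]), PS ((∏ i, (X - C (d i))) ^ 2) a b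
      (fun i => c0 + (i : ℕ)) (En r' n) = 0) (θ : K → K) :
    ∑ i ∈ range (r' + 1 + 1), hf d (n - i) * (EE (fun l => θ (d l))).coeff i = 0 := by
  obtain ⟨ν, hν⟩ := value_A d hd0 c0 θ
  have hm : ((∏ i, (X - C (d i))) ^ 2 : K[X]).Monic :=
    (monic_prod_of_monic _ _ fun i _ => monic_X_sub_C _).pow 2
  have hdeg : ((∏ i, (X - C (d i))) ^ 2 : K[X]).natDegree = (r' + 1) + (r' + 1) := by
    rw [(monic_prod_of_monic _ _ fun i _ => monic_X_sub_C _).natDegree_pow,
      natDegree_prod_of_monic _ _ (fun i _ => monic_X_sub_C _)]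
    simp only [natDegree_X_sub_C, sum_const, card_univ, Fintype.card_fin, smul_eq_mul, mul_one]
    ring
  have h1 := row_lemma hm hdeg (fun i : Fin (r' + 1) => ν * X ^ (i : ℕ))
    (fun j : Fin (r' + 1) => X ^ (j : ℕ)) (fun i => c0 + (i : ℕ))
  rw [norm_hT, hν] at h1
  rw [coeff_quot d _ (r' + 1) (EE_natDegree _) n hn _ h1]
  exact H _ _

/-- **LinA**, in the form `LinH`. -/
theorem linH_of_PS {r' : ℕ} (d : Fin (r' + 1) → K) (hd0 : ∀ i, d i ≠ 0) (c0 e : ℕ)
    (H : ∀ (a b : Fin (r' + 1) → K[X]), PS ((∏ i, (X - C (d i))) ^ 2) a b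
      (fun i => c0 + (i : ℕ)) (En r' (r' + 1 + e)) = 0) : LinH d e :=
  fun θ => linA d hd0 c0 (r' + 1 + e) (by omega) H θ

end fld

end Pool.Agent.Helper32.CYC
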