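import Pool.Agent.Helper32.CYC.Rev
import Pool.Agent.Helper32.CYC.LinA
import Pool.Agent.Helper42.CYC.StmtsC

/-!
# C2: the relation E2 in generating form
-/

set_option autoImplicit false

namespace Pool.Agent.Helper32.CYC

open Finset Polynomial Pool.Agent.Helper10.CYC Pool.Agent.Helper42.CYC

variable {R : Type} [CommRing R]

/-- Label permutation: `m, .., l'-1, l'` goes to `m+1, .., l', m`. -/
def rotf (m l' : ℕ) (hm : m ≤ l') (j : Fin (l' + 1)) : Fin (l' + 1) :=
  if (j : ℕ) < m then j else if h : (j : ℕ) < l' then ⟨(j : ℕ) + 1, by omega⟩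
    else ⟨m, by omega⟩

lemma rotf_inj (m l' : ℕ) (hm : m ≤ l') : Function.Injective (rotf m l' hm) := by
  intro a b h
  have ha := a.2
  have hb := b.2
  have h1 := congrArg Fin.val h
  unfold rotf at h1
  apply Fin.ext
  split_ifs at h1 <;> (try simp only at h1) <;> omega

noncomputable def rotE (m l' : ℕ) (hm : m ≤ l') : Equiv.Perm (Fin (l' + 1)) :=
  Equiv.ofBijective (rotf m l' hm) (Finite.injective_iff_bijective.1 (rotf_inj m l' hm))

/-- The surviving term of the merge with weight one. -/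
theorem merge_one [CharP R 2] (n m jj : ℕ) (hn : 1 ≤ n) (hjj : 2 ≤ jj) (f : R[X])
    (hrel : ∀ z : Fin (n + (m + jj)), n ≤ (z : ℕ) → Rel f (n + jj) (u2 (n + (m + jj)) n jj z))
    (a : Fin n → R[X]) (b : Fin (m + jj) → R[X]) :
    PS f a b (fun t => (m + jj - 1) + (t : ℕ))
      (fun t => if (t : ℕ) < m then (t : ℕ) else if (t : ℕ) = m then n + (m + jj)
        else (t : ℕ) - 1) = 0 := by
  have hrel' : ∀ z : Fin (n + (m + jj)), n ≤ (z : ℕ) →
      Rel f (n + jj) (u3 (n + (m + jj)) n jj z) := by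
    intro z hz
    have h1 : u3 (n + (m + jj)) n jj z = u2 (n + (m + jj)) n jj z := by
      funext i
      unfold u3 u2
      by_cases h2 : i = z
      · subst h2
        rw [if_pos rfl, if_neg (by omega), if_pos rfl]
      · rw [if_neg h2]
        by_cases h3 : (i : ℕ) < n
        · rw [if_pos h3, if_pos h3]
        · rw [if_neg h3, if_neg h3, if_neg h2]
    rw [h1]
    exact hrel z hz
  have h1 := merge_L n m jj 1 (by omega) f hrel' a b
  rw [Finset.sum_eq_single (n + jj - 1)] at h1
  · rw [← h1]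
    congr 1
    · funext t
      have := t.2
      unfold cl
      rw [if_neg (by omega)]
      omega
    · funext t
      have := t.2
      unfold cl
      by_cases h2 : (t : ℕ) < m
      · rw [if_pos h2, if_pos h2]
      · rw [if_neg h2, if_neg h2]
        by_cases h3 : (t : ℕ) = m
        · rw [if_pos h3, if_pos h3]; omega
        · rw [if_neg h3, if_neg h3, if_neg (by omega)]
          omega
  · intro i hi hne
    have hi' := mem_range.1 hi
    refine PS_zeroE f a b _ _ ⟨m, by omega⟩ ⟨m + 1, by omega⟩ ?_ ?_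
    · intro h
      have := congrArg Fin.val h
      simp at this
    · simp only [lt_self_iff_false, if_false, if_true]
      rw [if_neg (by omega), if_neg (by omega)]
      unfold cl
      rw [if_pos (by omega)]
      omega
  · intro h
    exact absurd (mem_range.2 (by omega)) h

/-- The same with the labels in order. -/
theorem merge_one' [CharP R 2] (n m j2 : ℕ) (hn : 1 ≤ n) (f : R[X])
    (hrel : ∀ z : Fin (n + ((m + j2 + 1) + 1)), n ≤ (z : ℕ) →
      Rel f (n + (j2 + 2)) (u2 (n + ((m + j2 + 1) + 1)) n (j2 + 2) z))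
    (a : Fin n → R[X]) (b : Fin ((m + j2 + 1) + 1) → R[X]) :
    PS f a b (fun t => (m + j2 + 1) + (t : ℕ)) (En (m + j2 + 1) (n + 1)) = 0 := by
  have h1 := merge_one n m (j2 + 2) hn (by omega) f hrel a b
  have h2 := PS_permE f a b (fun t => (m + (j2 + 2) - 1) + (t : ℕ))
    (fun t : Fin ((m + j2 + 1) + 1) => if (t : ℕ) < m then (t : ℕ)
      else if (t : ℕ) = m then n + (m + (j2 + 2)) else (t : ℕ) - 1) (rotE m (m + j2 + 1) (by omega))
  have h3 : (fun t : Fin ((m + j2 + 1) + 1) => if ((rotE m (m + j2 + 1) (by omega) t : Fin _) : ℕ) < m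
      then ((rotE m (m + j2 + 1) (by omega) t : Fin _) : ℕ)
      else if ((rotE m (m + j2 + 1) (by omega) t : Fin _) : ℕ) = m then n + (m + (j2 + 2))
      else ((rotE m (m + j2 + 1) (by omega) t : Fin _) : ℕ) - 1) = En (m + j2 + 1) (n + 1) := by
    funext t
    have ht := t.2
    have h4 : rotE m (m + j2 + 1) (by omega) t = rotf m (m + j2 + 1) (by omega) t := rfl
    rw [h4]
    unfold rotf En
    by_cases h5 : (t : ℕ) < m
    · simp only [if_pos h5]
      rw [if_pos (by omega)]
    · simp only [if_neg h5]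
      by_cases h6 : (t : ℕ) < m + j2 + 1
      · simp only [dif_pos h6, if_pos h6]
        rw [if_neg (by omega), if_neg (by omega)]
        omega
      · simp only [dif_neg h6, if_neg h6, lt_self_iff_false, if_false, if_true]
        omega
  have h5 : (fun t : Fin n => (m + (j2 + 2) - 1) + (t : ℕ)) = fun t : Fin n => (m + j2 + 1) + (t : ℕ) := by
    funext t
    omega
  rw [h5] at h1 h2
  rw [← h3]
  exact h2.trans h1

/-- An inverse of `X` modulo `f`. -/
lemma exists_inv_X [CharP R 2] (f : R[X]) (h0 : IsUnit (f.coeff 0)) :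
    ∃ y : R[X], f ∣ X * y - 1 := by
  obtain ⟨u, hu⟩ := h0
  refine ⟨C ((u⁻¹ : Rˣ) : R) * f.divX, C ((u⁻¹ : Rˣ) : R), ?_⟩
  have h1 := f.divX_mul_X_add
  have h2 : (C ((u⁻¹ : Rˣ) : R) : R[X]) * C (f.coeff 0) = 1 := by
    rw [← C_mul, ← hu, Units.inv_mul, C_1]
  have h3 : (2 : R[X]) = 0 := CharTwo.two_eq_zero
  linear_combination (C ((u⁻¹ : Rˣ) : R)) * h1 - h2 - h3

theorem st_e2 : ST_E2 := by
  intro R _ _ k s jj hs hjj hk f hf hd h0 hrel Γ ψ H hH
  obtain ⟨j2, rfl⟩ := Nat.exists_eq_add_of_le hjj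
  obtain ⟨m, hm⟩ := Nat.exists_eq_add_of_le hk
  have hk2 : k = s + ((m + j2 + 1) + 1) := by omega
  subst hk2
  set l' := m + j2 + 1 with hl'
  obtain ⟨y, hy⟩ := exists_inv_X f h0
  -- the relation
  have h1 := row_lemma hf hd (fun i : Fin s => Γ * y ^ l' * X ^ (i : ℕ))
    (fun j : Fin (l' + 1) => ψ * X ^ (j : ℕ)) (fun t => l' + (t : ℕ))
  have h2 : PS f (fun i : Fin s => Γ * y ^ l' * X ^ (i : ℕ))
      (fun j : Fin (l' + 1) => ψ * X ^ (j : ℕ)) (fun t => l' + (t : ℕ)) (En l' (s + 1)) = 0 := by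
    refine merge_one' s m j2 hs f ?_ _ _
    intro z hz
    have h3 := hrel z hz
    rw [show s + (j2 + 2) = s + (2 + j2) from by ring, show j2 + 2 = 2 + j2 from by ring]
    exact h3
  rw [norm_rev hf hd] at h1
  -- the squares
  have h4 : (fun i : Fin s => hT R * (Γ * y ^ l' * X ^ (i : ℕ)).map C)
      = fun i : Fin s => (hT R * (Γ * y ^ l').map C) * X ^ (i : ℕ) := by
    funext i
    rw [Polynomial.map_mul, Polynomial.map_pow, Polynomial.map_X, mul_assoc]
  have h5 : (fun j : Fin (l' + 1) => (ψ * X ^ (j : ℕ)).map (C : R →+* R[X]))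
      = fun j : Fin (l' + 1) => ψ.map C * X ^ (j : ℕ) := by
    funext j
    rw [Polynomial.map_mul, Polynomial.map_pow, Polynomial.map_X]
  rw [h4, h5, PSG_sq] at h1
  -- the columns
  have h6 : dd (f.map (C : R →+* R[X]))
      (Fin.append (fun i : Fin s => hT R * (Γ * y ^ l').map C * X ^ l' * X ^ (2 * (i : ℕ)))
        (fun j : Fin (l' + 1) => ψ.map C * X ^ (2 * (j : ℕ))))
      = dd (f.map C) (colT (s + (l' + 1)) s Γ ψ) := by
    refine Helper89.CYC.dd_congr_mod _ _ _ (fun i => ?_)
    refine Fin.addCases (fun i => ?_) (fun i => ?_) i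
    · rw [Fin.append_left, colT]
      simp only [Fin.val_castAdd, i.2, if_true]
      have h7 : f.map (C : R →+* R[X]) ∣ hT R * (Γ * y ^ l').map C * X ^ l' * X ^ (2 * (i : ℕ))
          - Γ.map C * (1 + C X * X) * X ^ (2 * (i : ℕ)) := by
        have h8 : f ∣ (X * y) ^ l' - 1 := by
          refine hy.trans ?_
          have := sub_dvd_pow_sub_pow (X * y) 1 l'
          rwa [one_pow] at this
        have h9 := Polynomial.map_dvd (C : R →+* R[X]) h8
        obtain ⟨q, hq⟩ := h9
        refine ⟨q * (hT R * Γ.map C * X ^ (2 * (i : ℕ))), ?_⟩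
        rw [Polynomial.map_sub, Polynomial.map_pow, Polynomial.map_mul, Polynomial.map_X,
          Polynomial.map_one, mul_pow] at hq
        rw [Polynomial.map_mul, Polynomial.map_pow]
        simp only [hT] at *
        linear_combination (Γ.map C * (1 + C X * X) * X ^ (2 * (i : ℕ))) * hq
      have h8 := (modByMonic_eq_zero_iff_dvd (hf.map (C : R →+* R[X]))).2 h7
      rw [sub_modByMonic] at h8
      exact sub_eq_zero.1 h8
    · rw [Fin.append_right, colT]
      simp only [Fin.val_natAdd]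
      rw [if_neg (by omega), Nat.add_sub_cancel_left]
  rw [h6] at h1
  rw [← h1, ← mul_assoc, hH, one_mul, PowerSeries.coeff_mk]
  exact h2

end Pool.Agent.Helper32.CYC
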