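import Pool.Agent.Helper32.CYC.Norm

/-!
# The block lemma: `dd` modulo `S(X^2)`
-/

set_option autoImplicit false

namespace Pool.Agent.Helper32.CYC

open Finset Polynomial Pool.Agent.Helper10.CYC

variable {R : Type} [CommRing R]

/-- `p(X^2)`. -/
noncomputable abbrev ex (p : R[X]) : R[X] := expand R 2 p

lemma ex_natDegree (S : R[X]) : (ex S).natDegree = 2 * S.natDegree := by
  rw [natDegree_expand]; ring

lemma ex_monic {S : R[X]} (hS : S.Monic) : (ex S).Monic := hS.expand (by norm_num)

lemma ex_mod {S : R[X]} (hS : S.Monic) (p q : R[X]) :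
    (ex p + X * ex q) %ₘ ex S = ex (p %ₘ S) + X * ex (q %ₘ S) := by
  rcases subsingleton_or_nontrivial R with hR | hR
  · exact Subsingleton.elim _ _
  refine (div_modByMonic_unique (ex (p /ₘ S) + X * ex (q /ₘ S)) _ (ex_monic hS) ⟨?_, ?_⟩).2
  · have h1 := congrArg (ex (R := R)) (modByMonic_add_div p S)
    have h2 := congrArg (ex (R := R)) (modByMonic_add_div q S)
    simp only [ex, map_add, map_mul] at h1 h2 ⊢
    linear_combination h1 + X * h2
  · have h1 := degree_modByMonic_lt p hS
    have h2 := degree_modByMonic_lt q hS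
    rw [degree_eq_natDegree (ex_monic hS).ne_zero, ex_natDegree, degree_lt_iff_coeff_zero]
    rw [degree_eq_natDegree hS.ne_zero, degree_lt_iff_coeff_zero] at h1 h2
    intro m hm
    rw [coeff_add]
    have hA : (ex (p %ₘ S)).coeff m = 0 := by
      rw [ex, coeff_expand (by norm_num)]
      split_ifs with h
      · exact h1 _ (by omega)
      · rfl
    rw [hA, zero_add]
    rcases m with _ | m
    · simp
    · rw [coeff_X_mul, ex, coeff_expand (by norm_num)]
      split_ifs with h
      · exact h2 _ (by omega)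
      · rfl

lemma ex_coeff_even (p q : R[X]) (a : ℕ) : (ex p + X * ex q).coeff (2 * a) = p.coeff a := by
  rw [coeff_add, ex, coeff_expand (by norm_num), if_pos ⟨a, rfl⟩]
  have : (X * ex q).coeff (2 * a) = 0 := by
    rcases a with _ | a
    · simp
    · rw [show 2 * (a + 1) = (2 * a + 1) + 1 from by ring, coeff_X_mul, ex,
        coeff_expand (by norm_num), if_neg (by omega)]
  rw [this, add_zero]
  congr 1
  omega

lemma ex_coeff_odd (p q : R[X]) (a : ℕ) : (ex p + X * ex q).coeff (2 * a + 1) = q.coeff a := by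
  rw [coeff_add, coeff_X_mul, ex, ex, coeff_expand (by norm_num), coeff_expand (by norm_num),
    if_neg (by omega), if_pos ⟨a, rfl⟩, zero_add]
  congr 1
  omega

/-- The row order: odd positions first. -/
def rowf (r : ℕ) : Fin r ⊕ Fin r → Fin (r + r) :=
  Sum.elim (fun i => ⟨2 * (i : ℕ) + 1, by have := i.2; omega⟩)
    (fun i => ⟨2 * (i : ℕ), by have := i.2; omega⟩)

lemma rowf_inj (r : ℕ) : Function.Injective (rowf r) := by
  rintro (i | i) (j | j) h <;> simp only [rowf, Sum.elim_inl, Sum.elim_inr, Fin.mk.injEq] at h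
  · congr 1; ext; omega
  · omega
  · omega
  · congr 1; ext; omega

noncomputable def rowE (r : ℕ) : Fin r ⊕ Fin r ≃ Fin (r + r) :=
  Equiv.ofBijective (rowf r) ((Fintype.bijective_iff_injective_and_card _).2
    ⟨rowf_inj r, by simp⟩)

lemma det_submatrix_two [CharP R 2] {m n : Type} [Fintype m] [DecidableEq m] [Fintype n]
    [DecidableEq n] (e1 e2 : m ≃ n) (M : Matrix n n R) : (M.submatrix e1 e2).det = M.det := by
  have h1 : M.submatrix e1 e2 = (M.submatrix (e2.symm.trans e1) id).submatrix e2 e2 := by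
    ext i j
    simp
  rw [h1, Matrix.det_submatrix_equiv_self]
  have h2 := Matrix.det_permute (e2.symm.trans e1) M
  rw [h2]
  rcases Int.units_eq_one_or (Equiv.Perm.sign (e2.symm.trans e1)) with h | h
  · rw [h]; simp
  · rw [h]
    have h3 : ((((-1 : ℤˣ) : ℤ)) : R) = 1 := by
      push_cast
      have h4 : (2 : R) = 0 := CharTwo.two_eq_zero
      linear_combination (-1 : R) * h4
    rw [h3, one_mul]

/-- **Block lemma.** -/
theorem dd_block [CharP R 2] {r : ℕ} {S : R[X]} (hS : S.Monic)
    (ue uo ve : Fin r → R[X]) :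
    dd (ex S) (Fin.append (fun i => ex (ue i) + X * ex (uo i)) (fun j => ex (ve j)))
      = dd S uo * dd S ve := by
  unfold dd
  rw [← det_submatrix_two (rowE r) finSumFinEquiv, ← Matrix.det_fromBlocks_zero₁₂ _
    (Matrix.of fun a j : Fin r => (ue j %ₘ S).coeff (a : ℕ))]
  congr 1
  ext i j
  rcases i with i | i <;> rcases j with j | j
  · simp only [Matrix.submatrix_apply, Matrix.of_apply, finSumFinEquiv_apply_left,
      Fin.append_left, Matrix.fromBlocks_apply₁₁]
    rw [ex_mod hS]
    exact ex_coeff_odd _ _ _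
  · simp only [Matrix.submatrix_apply, Matrix.of_apply, finSumFinEquiv_apply_right,
      Fin.append_right, Matrix.fromBlocks_apply₁₂, Matrix.zero_apply]
    have h := ex_mod hS (ve j) 0
    rw [show ex (0 : R[X]) = 0 from map_zero _, mul_zero, add_zero] at h
    rw [h]
    have h2 := ex_coeff_odd (ve j %ₘ S) ((0 : R[X]) %ₘ S) (i : ℕ)
    rw [zero_modByMonic] at h2 ⊢
    exact h2
  · simp only [Matrix.submatrix_apply, Matrix.of_apply, finSumFinEquiv_apply_left,
      Fin.append_left, Matrix.fromBlocks_apply₂₁]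
    rw [ex_mod hS]
    exact ex_coeff_even _ _ _
  · simp only [Matrix.submatrix_apply, Matrix.of_apply, finSumFinEquiv_apply_right,
      Fin.append_right, Matrix.fromBlocks_apply₂₂]
    have h := ex_mod hS (ve j) 0
    rw [show ex (0 : R[X]) = 0 from map_zero _, mul_zero, add_zero] at h
    rw [h]
    exact ex_coeff_even _ _ _

end Pool.Agent.Helper32.CYC
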