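import Pool.Agent.Helper89.CYC.DD
import Pool.Agent.Helper91.CYC.PieceA

/-!
# Norms and the block lemma for `dd`
-/

set_option autoImplicit false

namespace Pool.Agent.Helper32.CYC

open Finset Polynomial Pool.Agent.Helper10.CYC

/-- `dd` of `p X^j` is the product of the values of `p` at the roots (repeated roots allowed). -/
theorem dd_norm {A : Type} [CommRing A] [IsDomain A] {r : ℕ} (y : Fin r → A) (p : A[X]) :
    dd (∏ i, (X - C (y i))) (fun j : Fin r => p * X ^ (j : ℕ)) = ∏ i, p.eval (y i) := by
  classical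
  have h1 := Helper91.CYC.st_a2 (MvPolynomial (Fin r) A) r (fun i => MvPolynomial.X i)
    (fun j : Fin r => p.map MvPolynomial.C * X ^ (j : ℕ))
  have h2 : (Matrix.of fun i j : Fin r =>
      (p.map (MvPolynomial.C : A →+* MvPolynomial (Fin r) A) * X ^ (j : ℕ)).eval
        (MvPolynomial.X i : MvPolynomial (Fin r) A))
      = Matrix.of fun i j : Fin r =>
        (p.map (MvPolynomial.C : A →+* MvPolynomial (Fin r) A)).eval
          (MvPolynomial.X i : MvPolynomial (Fin r) A) *
          Matrix.vandermonde (fun i : Fin r => (MvPolynomial.X i : MvPolynomial (Fin r) A)) i j := by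
    ext1 i j
    simp [Matrix.vandermonde_apply]
  rw [h2, Matrix.det_mul_column, mul_comm] at h1
  have hV : (Matrix.vandermonde
      (fun i : Fin r => (MvPolynomial.X i : MvPolynomial (Fin r) A))).det ≠ 0 := by
    rw [Matrix.det_vandermonde_ne_zero_iff]
    exact MvPolynomial.X_injective
  have h3 := mul_left_cancel₀ hV h1
  have h4 := congrArg (MvPolynomial.eval₂Hom (RingHom.id A) y) h3
  rw [Helper91.CYC.st_a1 (MvPolynomial (Fin r) A) A (MvPolynomial.eval₂Hom (RingHom.id A) y) r _
    (monic_prod_of_monic _ _ fun i _ => monic_X_sub_C _)] at h4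
  have h5 : Polynomial.map (MvPolynomial.eval₂Hom (RingHom.id A) y)
      (∏ i, (X - C (MvPolynomial.X i : MvPolynomial (Fin r) A))) = ∏ i, (X - C (y i)) := by
    rw [Polynomial.map_prod]
    refine prod_congr rfl (fun i _ => ?_)
    simp
  have h6 : (MvPolynomial.eval₂Hom (RingHom.id A) y).comp
      (MvPolynomial.C : A →+* MvPolynomial (Fin r) A) = RingHom.id A := by
    ext a
    simp
  rw [h5] at h4
  have h7 : (fun j : Fin r => Polynomial.map (MvPolynomial.eval₂Hom (RingHom.id A) y)
      (p.map MvPolynomial.C * X ^ (j : ℕ))) = fun j : Fin r => p * X ^ (j : ℕ) := by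
    funext j
    rw [Polynomial.map_mul, Polynomial.map_map, h6, Polynomial.map_id, Polynomial.map_pow,
      Polynomial.map_X]
  rw [h7] at h4
  rw [← h4, map_prod]
  refine prod_congr rfl (fun i _ => ?_)
  rw [← Polynomial.eval₂_at_apply, ← Polynomial.eval_map, Polynomial.map_map, h6,
    Polynomial.map_id]
  simp

end Pool.Agent.Helper32.CYC
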