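import Pool.Agent.Helper32.CYC.Row2

/-!
# The norm of `1 + T X` modulo `f` is the reversed polynomial
-/

set_option autoImplicit false

namespace Pool.Agent.Helper32.CYC

open Finset Polynomial Pool.Agent.Helper10.CYC

lemma alt_tri {R : Type} [CommRing R] [CharP R 2] {l' : ℕ} (g : R[X] [⋀^Fin (l' + 1)]→ₗ[R] R)
    (c : R) :
    g (fun j : Fin (l' + 1) => if (j : ℕ) < l' then (1 + C c * X) * X ^ (j : ℕ)
      else X ^ (j : ℕ)) = g (fun j => X ^ (j : ℕ)) := by
  have key : ∀ t : ℕ, t ≤ l' →
      g (fun j : Fin (l' + 1) => if (j : ℕ) < t then (1 + C c * X) * X ^ (j : ℕ)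
        else X ^ (j : ℕ)) = g (fun j => X ^ (j : ℕ)) := by
    intro t
    induction t with
    | zero => intro _; simp
    | succ t ih =>
      intro ht
      rw [← ih (by omega)]
      set v : Fin (l' + 1) → R[X] := fun j => if (j : ℕ) < t then (1 + C c * X) * X ^ (j : ℕ)
        else X ^ (j : ℕ) with hv
      have h1 : (fun j : Fin (l' + 1) => if (j : ℕ) < t + 1 then (1 + C c * X) * X ^ (j : ℕ)
        else X ^ (j : ℕ)) = Function.update v ⟨t, by omega⟩ (X ^ t + c • X ^ (t + 1)) := by
        funext j
        by_cases hj : j = ⟨t, by omega⟩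
        · subst hj
          rw [Function.update_self]
          simp only [Nat.lt_succ_self, if_true]
          rw [smul_eq_C_mul]; ring
        · rw [Function.update_of_ne hj, hv]
          have : (j : ℕ) ≠ t := fun h => hj (Fin.ext h)
          by_cases h2 : (j : ℕ) < t
          · simp only [h2, if_true, show (j : ℕ) < t + 1 from by omega]
          · simp only [h2, if_false, show ¬ (j : ℕ) < t + 1 from by omega]
      rw [h1, AlternatingMap.map_update_add, AlternatingMap.map_update_smul]
      have h2 : Function.update v ⟨t, by omega⟩ (X ^ t) = v := by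
        funext j
        by_cases hj : j = ⟨t, by omega⟩
        · subst hj
          rw [Function.update_self, hv]
          simp
        · rw [Function.update_of_ne hj]
      have h3 : g (Function.update v ⟨t, by omega⟩ (X ^ (t + 1))) = 0 := by
        refine AlternatingMap.map_eq_zero_of_eq _ _ (i := ⟨t, by omega⟩) (j := ⟨t + 1, by omega⟩)
          ?_ ?_
        · rw [Function.update_self, Function.update_of_ne, hv]
          · simp
          · intro h
            have := congrArg Fin.val h
            simp at this
        · intro h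
          have := congrArg Fin.val h
          simp at this
      rw [h2, h3, smul_zero, add_zero]
  exact key l' le_rfl

/-- The norm of `1 + T X`. -/
theorem norm_rev {R : Type} [CommRing R] [CharP R 2] {k : ℕ} {f : R[X]} (hf : f.Monic)
    (hd : f.natDegree = k) :
    dd (f.map (C : R →+* R[X])) (fun j : Fin k => hT R * X ^ (j : ℕ)) = f.reverse := by
  rcases subsingleton_or_nontrivial R with hR | hR
  · exact Subsingleton.elim _ _
  rcases k with _ | k'
  · have h1 : f = 1 := hf.natDegree_eq_zero.1 hd
    subst h1
    rw [show (1 : R[X]) = C 1 from rfl, reverse_C]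
    simp [dd]
  have hf' : (f.map (C : R →+* R[X])).Monic := hf.map _
  have hd' : (f.map (C : R →+* R[X])).natDegree = k' + 1 := by rw [hf.natDegree_map, hd]
  set F : R[X][X] := f.map (C : R →+* R[X]) with hF
  set v : Fin (k' + 1) → R[X][X] := fun j => hT R * X ^ (j : ℕ) with hv
  set lam : R[X][X] → R[X] := fun p =>
    Helper89.CYC.ddA (k' + 1) F (Function.update v (Fin.last k') p) with hlam
  have hadd : ∀ p q, lam (p + q) = lam p + lam q := fun p q =>
    AlternatingMap.map_update_add _ _ _ _ _
  have hsmul : ∀ (c : R[X]) p, lam (C c * p) = c * lam p := by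
    intro c p
    rw [← smul_eq_C_mul, hlam]
    simp only
    rw [AlternatingMap.map_update_smul, smul_eq_mul]
  have htop : lam (X ^ k') = 1 := by
    rw [hlam]
    simp only
    have h1 : Function.update v (Fin.last k') (X ^ k')
        = fun j : Fin (k' + 1) => if (j : ℕ) < k' then (1 + C (X : R[X]) * X) * X ^ (j : ℕ)
          else X ^ (j : ℕ) := by
      funext j
      by_cases hj : j = Fin.last k'
      · subst hj
        rw [Function.update_self]
        simp
      · rw [Function.update_of_ne hj]
        have : (j : ℕ) < k' := by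
          have h2 := j.2
          have h3 : (j : ℕ) ≠ k' := fun h => hj (Fin.ext h)
          omega
        simp [this, hv, hT]
    rw [h1, alt_tri, ← Helper89.CYC.dd_eq, Helper89.CYC.dd_basis hf' hd']
  have hrep : ∀ i, i < k' → lam (hT R * X ^ i) = 0 := by
    intro i hi
    refine AlternatingMap.map_eq_zero_of_eq _ _ (i := (⟨i, by omega⟩ : Fin (k' + 1)))
      (j := Fin.last k') ?_ ?_
    · rw [Function.update_self, Function.update_of_ne, hv]
      intro h
      have := congrArg Fin.val h
      simp at this
      omega
    · intro h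
      have := congrArg Fin.val h
      simp at this
      omega
  have hpow : ∀ i, i ≤ k' → lam (X ^ (k' - i)) = X ^ i := by
    intro i
    induction i with
    | zero => intro _; rw [Nat.sub_zero, htop, pow_zero]
    | succ i ih =>
      intro hi
      have h1 := hrep (k' - (i + 1)) (by omega)
      have h2 : hT R * (X : R[X][X]) ^ (k' - (i + 1)) = X ^ (k' - (i + 1))
          + C X * X ^ (k' - i) := by
        rw [hT, add_mul, one_mul, mul_assoc, ← pow_succ']
        congr 3
        omega
      rw [h2, hadd, hsmul, ih (by omega)] at h1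
      have h3 : (X : R[X]) * X ^ i + X * X ^ i = 0 := CharTwo.add_self_eq_zero _
      have h4 := CharTwo.add_eq_zero.1 h1
      rw [h4, pow_succ']
  have hlast : dd F (fun j : Fin (k' + 1) => hT R * X ^ (j : ℕ)) = lam (hT R * X ^ k') := by
    rw [hlam]
    simp only
    rw [← Helper89.CYC.dd_eq]
    congr 1
    funext j
    by_cases hj : j = Fin.last k'
    · subst hj
      rw [Function.update_self]
      simp
    · rw [Function.update_of_ne hj]
  have hXk : lam (X ^ (k' + 1)) = ∑ i ∈ range (k' + 1), C (f.coeff i) * X ^ (k' - i) := by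
    have h1 : lam (X ^ (k' + 1)) = lam (∑ i ∈ range (k' + 1), C (F.coeff i) * X ^ i) := by
      rw [hlam]
      simp only
      rw [← Helper89.CYC.dd_eq, ← Helper89.CYC.dd_eq]
      refine Helper89.CYC.dd_update_mod hf' _ _ _ _ ?_
      have h2 := F.as_sum_range_C_mul_X_pow
      rw [hd', sum_range_succ] at h2
      have h3 : F.coeff (k' + 1) = 1 := by
        have := hf'.coeff_natDegree
        rwa [hd'] at this
      rw [h3, C_1, one_mul] at h2
      have h4 : (2 : R[X][X]) = 0 := CharTwo.two_eq_zero
      refine ⟨1, ?_⟩
      linear_combination -h2 - (∑ i ∈ range (k' + 1), C (F.coeff i) * X ^ i) * h4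
    have hsum : ∀ S : Finset ℕ, lam (∑ i ∈ S, C (F.coeff i) * X ^ i)
        = ∑ i ∈ S, F.coeff i * lam (X ^ i) := by
      intro S
      induction S using Finset.induction_on with
      | empty =>
        rw [sum_empty, sum_empty]
        have := hsmul 0 0
        simpa using this
      | insert a S ha ih =>
        rw [sum_insert ha, sum_insert ha, hadd, hsmul, ih]
    rw [h1, hsum]
    refine sum_congr rfl (fun i hi => ?_)
    have hi' := mem_range.1 hi
    rw [hF, coeff_map]
    congr 1
    have := hpow (k' - i) (by omega)
    rwa [show k' - (k' - i) = i from by omega] at this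
  rw [hlast]
  have h5 : hT R * (X : R[X][X]) ^ k' = X ^ k' + C X * X ^ (k' + 1) := by
    rw [hT, add_mul, one_mul, mul_assoc, ← pow_succ']
  rw [h5, hadd, hsmul, htop, hXk]
  ext n
  rw [coeff_reverse, hd, coeff_add, coeff_one]
  rcases n with _ | n
  · rw [show revAt (k' + 1) 0 = k' + 1 from by rw [revAt_le (Nat.zero_le _), Nat.sub_zero]]
    have := hf.coeff_natDegree
    rw [hd] at this
    rw [this]
    simp
  · rw [if_neg (Nat.succ_ne_zero n), zero_add, coeff_X_mul, finsetSum_coeff]
    by_cases hn : n + 1 ≤ k' + 1
    · rw [revAt_le hn, Finset.sum_eq_single (k' - n)]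
      · rw [coeff_C_mul, coeff_X_pow, if_pos (by omega), mul_one]
        congr 1
        omega
      · intro i hi hne
        have := mem_range.1 hi
        rw [coeff_C_mul, coeff_X_pow, if_neg (by omega), mul_zero]
      · intro h
        exact absurd (mem_range.2 (by omega)) h
    · rw [revAt_eq_self_of_lt (by omega), coeff_eq_zero_of_natDegree_lt (by omega)]
      refine Finset.sum_eq_zero (fun i hi => ?_)
      have := mem_range.1 hi
      rw [coeff_C_mul, coeff_X_pow, if_neg (by omega), mul_zero]

end Pool.Agent.Helper32.CYC
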