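import Pool.Agent.Helper32.CYC.Block
import Pool.Agent.Helper10.CYC.Merge

/-!
# The row lemma: the two block sum with one moved label
-/

set_option autoImplicit false

namespace Pool.Agent.Helper32.CYC

open Finset Polynomial Pool.Agent.Helper10.CYC

section psg

variable {R : Type} [CommRing R] {s l : ℕ}

/-- The two block sum for arbitrary label functions. -/
noncomputable def PSG (f : R[X]) (a : Fin s → R[X]) (b : Fin l → R[X]) (φ : Fin s → R[X])
    (ψ : Fin l → R[X]) : R :=
  ∑ σ : Equiv.Perm (Fin s), ∑ τ : Equiv.Perm (Fin l),
    dd f (Fin.append (fun i => a i * φ (σ i)) (fun j => b j * ψ (τ j)))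

lemma PS_eq_PSG (f : R[X]) (a : Fin s → R[X]) (b : Fin l → R[X]) (C : Fin s → ℕ)
    (E : Fin l → ℕ) : PS f a b C E = PSG f a b (fun i => X ^ C i) (fun j => X ^ E j) := rfl

lemma append_update (u : Fin s → R[X]) (v : Fin l → R[X]) (j : Fin l) (p : R[X]) :
    Fin.append u (Function.update v j p)
      = Function.update (Fin.append u v) (Fin.natAdd s j) p := by
  ext1 i
  refine Fin.addCases (fun i => ?_) (fun i => ?_) i
  · rw [Fin.append_left, Function.update_of_ne, Fin.append_left]
    intro h
    have := congrArg Fin.val h
    simp only [Fin.val_castAdd, Fin.val_natAdd] at this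
    have := i.2
    omega
  · rw [Fin.append_right]
    by_cases h : i = j
    · subst h
      rw [Function.update_self, Function.update_self]
    · rw [Function.update_of_ne h, Function.update_of_ne, Fin.append_right]
      intro h2
      exact h (Fin.natAdd_injective _ _ h2)

/-- The summand as a multilinear map in the label functions of the second block. -/
noncomputable def mPS (f : R[X]) (a : Fin s → R[X]) (b : Fin l → R[X]) (φ : Fin s → R[X]) :
    MultilinearMap R (fun _ : Fin l => R[X]) R where
  toFun v := ∑ σ : Equiv.Perm (Fin s),
    dd f (Fin.append (fun i => a i * φ (σ i)) (fun j => b j * v j))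
  map_update_add' := by
    intro inst v j p q
    obtain rfl : inst = instDecidableEqFin _ := Subsingleton.elim _ _
    rw [← sum_add_distrib]
    refine sum_congr rfl (fun σ _ => ?_)
    have key : ∀ p : R[X], (fun j' => b j' * Function.update v j p j')
        = Function.update (fun j' => b j' * v j') j (b j * p) := by
      intro p
      funext j'
      by_cases h : j' = j
      · subst h; simp
      · simp [Function.update_of_ne h]
    simp only [Helper89.CYC.dd_eq]
    rw [key (p + q), key p, key q, append_update, append_update, append_update, mul_add,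
      AlternatingMap.map_update_add]
  map_update_smul' := by
    intro inst v j c p
    obtain rfl : inst = instDecidableEqFin _ := Subsingleton.elim _ _
    rw [smul_sum]
    refine sum_congr rfl (fun σ _ => ?_)
    have key : ∀ p : R[X], (fun j' => b j' * Function.update v j p j')
        = Function.update (fun j' => b j' * v j') j (b j * p) := by
      intro p
      funext j'
      by_cases h : j' = j
      · subst h; simp
      · simp [Function.update_of_ne h]
    simp only [Helper89.CYC.dd_eq]
    rw [key (c • p), key p, append_update, append_update, mul_smul_comm,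
      AlternatingMap.map_update_smul]

/-- `PSG` as an alternating map in the second label functions (characteristic 2). -/
noncomputable def altPS (f : R[X]) (a : Fin s → R[X]) (b : Fin l → R[X]) (φ : Fin s → R[X]) :
    R[X] [⋀^Fin l]→ₗ[R] R :=
  MultilinearMap.alternatization (mPS f a b φ)

lemma altPS_apply [CharP R 2] (f : R[X]) (a : Fin s → R[X]) (b : Fin l → R[X])
    (φ : Fin s → R[X]) (ψ : Fin l → R[X]) : altPS f a b φ ψ = PSG f a b φ ψ := by
  unfold altPS PSG
  rw [MultilinearMap.alternatization_apply, sum_comm]
  refine sum_congr rfl (fun τ _ => ?_)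
  rw [MultilinearMap.domDomCongr_apply]
  have h1 : (Equiv.Perm.sign τ) • (mPS f a b φ fun i => ψ (τ i)) = mPS f a b φ fun i => ψ (τ i) := by
    rcases Int.units_eq_one_or (Equiv.Perm.sign τ) with h | h
    · rw [h, one_smul]
    · rw [h, Units.neg_smul, one_smul, CharTwo.neg_eq]
  rw [h1]
  rfl

/-- Multiplying all columns. -/
lemma PSG_mul {f : R[X]} (hf : f.Monic) (hd : f.natDegree = s + l) (h : R[X])
    (a : Fin s → R[X]) (b : Fin l → R[X]) (φ : Fin s → R[X]) (ψ : Fin l → R[X]) :
    PSG f (fun i => h * a i) b φ (fun j => h * ψ j)
      = dd f (fun j : Fin (s + l) => h * X ^ (j : ℕ)) * PSG f a b φ ψ := by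
  unfold PSG
  rw [mul_sum]
  refine sum_congr rfl (fun σ _ => ?_)
  rw [mul_sum]
  refine sum_congr rfl (fun τ _ => ?_)
  rw [← Helper89.CYC.dd_mul hf hd]
  congr 1
  funext i
  refine Fin.addCases (fun i => ?_) (fun i => ?_) i
  · rw [Fin.append_left, Fin.append_left, mul_assoc]
  · rw [Fin.append_right, Fin.append_right]; ring

/-- Triangular column operations in the second block. -/
lemma PSG_tri [CharP R 2] (f : R[X]) (c : R) {l' : ℕ} (a : Fin s → R[X])
    (b : Fin (l' + 1) → R[X]) (φ : Fin s → R[X]) :
    PSG f a b φ (fun j : Fin (l' + 1) => if (j : ℕ) < l' then (1 + C c * X) * X ^ (j : ℕ)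
      else X ^ (j : ℕ)) = PSG f a b φ (fun j => X ^ (j : ℕ)) := by
  have key : ∀ t : ℕ, t ≤ l' →
      PSG f a b φ (fun j : Fin (l' + 1) => if (j : ℕ) < t then (1 + C c * X) * X ^ (j : ℕ)
        else X ^ (j : ℕ)) = PSG f a b φ (fun j => X ^ (j : ℕ)) := by
    intro t
    induction t with
    | zero => intro _; simp
    | succ t ih =>
      intro ht
      rw [← ih (by omega), ← altPS_apply, ← altPS_apply]
      set v : Fin (l' + 1) → R[X] := fun j => if (j : ℕ) < t then (1 + C c * X) * X ^ (j : ℕ)
        else X ^ (j : ℕ) with hv
      have h1 : (fun j : Fin (l' + 1) => if (j : ℕ) < t + 1 then (1 + C c * X) * X ^ (j : ℕ)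
        else X ^ (j : ℕ)) = Function.update v ⟨t, by omega⟩ (X ^ t + c • X ^ (t + 1)) := by
        funext j
        by_cases hj : j = ⟨t, by omega⟩
        · subst hj
          rw [Function.update_self]
          simp only [Nat.lt_succ_self, if_true]
          rw [smul_eq_C_mul]; ring
        · rw [Function.update_of_ne hj, hv]
          have : (j : ℕ) ≠ t := fun h => hj (Fin.ext h)
          by_cases h2 : (j : ℕ) < t
          · simp only [h2, if_true, show (j : ℕ) < t + 1 from by omega]
          · simp only [h2, if_false, show ¬ (j : ℕ) < t + 1 from by omega]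
      rw [h1, AlternatingMap.map_update_add, AlternatingMap.map_update_smul]
      have h2 : Function.update v ⟨t, by omega⟩ (X ^ t) = v := by
        funext j
        by_cases hj : j = ⟨t, by omega⟩
        · subst hj
          rw [Function.update_self, hv]
          simp
        · rw [Function.update_of_ne hj]
      have h3 : altPS f a b φ (Function.update v ⟨t, by omega⟩ (X ^ (t + 1))) = 0 := by
        refine AlternatingMap.map_eq_zero_of_eq _ _ (i := ⟨t, by omega⟩) (j := ⟨t + 1, by omega⟩)
          ?_ ?_
        · rw [Function.update_self, Function.update_of_ne, hv]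
          · simp
          · intro h
            have := congrArg Fin.val h
            simp at this
        · intro h
          have := congrArg Fin.val h
          simp at this
      rw [h2, h3, smul_zero, add_zero]
  exact key l' le_rfl

end psg

end Pool.Agent.Helper32.CYC
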