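import Pool.Agent.Helper32.CYC.Row

/-!
# The row lemma, generating function
-/

set_option autoImplicit false

namespace Pool.Agent.Helper32.CYC

open Finset Polynomial Pool.Agent.Helper10.CYC

variable {R : Type} [CommRing R] {s l : ℕ}

/-- The labels `0, .., l'-1, l'+n`. -/
def En (l' n : ℕ) : Fin (l' + 1) → ℕ := fun j => if (j : ℕ) < l' then (j : ℕ) else l' + n

/-- `1 + T X` over `R[T]`. -/
noncomputable def hT (R : Type) [CommRing R] : R[X][X] := 1 + C X * X

lemma PSG_map (f : R[X]) (hf : f.Monic) (a : Fin s → R[X]) (b : Fin l → R[X])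
    (Cx : Fin s → ℕ) (E : Fin l → ℕ) :
    PSG (f.map (C : R →+* R[X])) (fun i => (a i).map C) (fun j => (b j).map C)
      (fun i => X ^ Cx i) (fun j => X ^ E j) = C (PS f a b Cx E) := by
  unfold PSG PS
  rw [map_sum]
  refine sum_congr rfl (fun σ _ => ?_)
  rw [map_sum]
  refine sum_congr rfl (fun τ _ => ?_)
  rw [Helper91.CYC.st_a1 R R[X] C _ f hf]
  congr 1
  funext i
  refine Fin.addCases (fun i => ?_) (fun i => ?_) i
  · rw [Fin.append_left, Fin.append_left]; simp
  · rw [Fin.append_right, Fin.append_right]; simp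

lemma PSG_row_sum [CharP R 2] {l' : ℕ} (f : R[X]) (a : Fin s → R[X])
    (b : Fin (l' + 1) → R[X]) (φ : Fin s → R[X]) (v : Fin (l' + 1) → R[X]) {ι : Type}
    (S : Finset ι) (c : ι → R) (p : ι → R[X]) :
    PSG f a b φ (Function.update v (Fin.last l') (∑ i ∈ S, C (c i) * p i))
      = ∑ i ∈ S, c i * PSG f a b φ (Function.update v (Fin.last l') (p i)) := by
  simp only [← altPS_apply]
  rw [AlternatingMap.map_update_sum]
  refine sum_congr rfl (fun i _ => ?_)
  rw [← smul_eq_C_mul, AlternatingMap.map_update_smul, smul_eq_mul]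

/-- **Row lemma.** -/
theorem row_lemma [CharP R 2] {l' : ℕ} {f : R[X]} (hf : f.Monic)
    (hd : f.natDegree = s + (l' + 1)) (a : Fin s → R[X]) (b : Fin (l' + 1) → R[X])
    (Cx : Fin s → ℕ) :
    ((dd (f.map C) (fun j : Fin (s + (l' + 1)) => hT R * X ^ (j : ℕ)) : R[X]) : PowerSeries R)
      * PowerSeries.mk (fun n => PS f a b Cx (En l' n))
      = ((PSG (f.map C) (fun i => hT R * (a i).map C) (fun j => (b j).map C)
        (fun i => X ^ Cx i) (fun j => X ^ (j : ℕ)) : R[X]) : PowerSeries R) := by
  rcases subsingleton_or_nontrivial R with hR | hR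
  · have : Subsingleton (PowerSeries R) := by
      refine ⟨fun x y => ?_⟩
      ext n
      exact Subsingleton.elim _ _
    exact Subsingleton.elim _ _
  set N : R[X] := dd (f.map C) (fun j : Fin (s + (l' + 1)) => hT R * X ^ (j : ℕ)) with hN
  set B : R[X] := PSG (f.map C) (fun i => hT R * (a i).map C) (fun j => (b j).map C)
        (fun i => X ^ Cx i) (fun j => X ^ (j : ℕ)) with hB
  set c : ℕ → R := fun n => PS f a b Cx (En l' n) with hc
  have hf' : (f.map (C : R →+* R[X])).Monic := hf.map _
  have hd' : (f.map (C : R →+* R[X])).natDegree = s + (l' + 1) := by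
    rw [hf.natDegree_map, hd]
  ext n
  -- the truncated geometric series
  set v : Fin (l' + 1) → R[X][X] := fun j => X ^ (j : ℕ) with hv
  set g : R[X][X] := ∑ m ∈ range (n + 1), C ((X : R[X]) ^ m) * X ^ (l' + m) with hg
  have h1 : PSG (f.map C) (fun i => (a i).map C) (fun j => (b j).map C)
        (fun i => X ^ Cx i) (Function.update v (Fin.last l') g)
      = ∑ m ∈ range (n + 1), X ^ m * C (c m) := by
    rw [hg, PSG_row_sum]
    refine sum_congr rfl (fun m _ => ?_)
    have hfun : Function.update v (Fin.last l') (X ^ (l' + m))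
        = fun j : Fin (l' + 1) => (X : R[X][X]) ^ (En l' m j) := by
      funext j
      by_cases hj : j = Fin.last l'
      · subst hj
        rw [Function.update_self, En]
        simp
      · rw [Function.update_of_ne hj, En]
        have : (j : ℕ) < l' := by
          have h2 := j.2
          have h3 : (j : ℕ) ≠ l' := fun h => hj (Fin.ext h)
          omega
        simp [this, hv]
    rw [hfun, PSG_map f hf a b Cx (En l' m)]
  have h2 := PSG_mul hf' hd' (hT R) (fun i => (a i).map C) (fun j => (b j).map C)
    (fun i => X ^ Cx i) (Function.update v (Fin.last l') g)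
  rw [h1, ← hN] at h2
  -- the product of the last column
  have h3 : hT R * g = X ^ l' + C ((X : R[X]) ^ (n + 1)) * X ^ (l' + (n + 1)) := by
    have key : ∀ M : ℕ, hT R * ∑ m ∈ range M, C ((X : R[X]) ^ m) * X ^ (l' + m)
        = X ^ l' + C ((X : R[X]) ^ M) * X ^ (l' + M) := by
      intro M
      induction M with
      | zero =>
        have : (X : R[X][X]) ^ l' + X ^ l' = 0 := CharTwo.add_self_eq_zero _
        simp [this]
      | succ M ih =>
        rw [sum_range_succ, mul_add, ih, hT]
        have h0 : (C ((X : R[X]) ^ M) * X ^ (l' + M) : R[X][X])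
            + C ((X : R[X]) ^ M) * X ^ (l' + M) = 0 := CharTwo.add_self_eq_zero _
        have h5 : (C ((X : R[X]) ^ (M + 1)) : R[X][X]) = C X * C (X ^ M) := by
          rw [← map_mul, pow_succ, mul_comm]
        rw [h5]
        linear_combination h0
    exact key (n + 1)
  have h4 : (fun j => hT R * Function.update v (Fin.last l') g j)
      = Function.update (fun j : Fin (l' + 1) => if (j : ℕ) < l' then (1 + C X * X) * X ^ (j : ℕ)
        else X ^ (j : ℕ)) (Fin.last l')
          (∑ t : Bool, C (if t then (1 : R[X]) else X ^ (n + 1)) *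
            (if t then X ^ l' else X ^ (l' + (n + 1)))) := by
    funext j
    by_cases hj : j = Fin.last l'
    · subst hj
      rw [Function.update_self, Function.update_self, h3]
      simp
    · rw [Function.update_of_ne hj, Function.update_of_ne hj]
      have : (j : ℕ) < l' := by
        have h2 := j.2
        have h3 : (j : ℕ) ≠ l' := fun h => hj (Fin.ext h)
        omega
      simp [this, hv, hT]
  rw [h4, PSG_row_sum, Fintype.sum_bool] at h2
  simp only [if_true, Bool.false_eq_true, if_false, one_mul] at h2
  have h5 : Function.update (fun j : Fin (l' + 1) => if (j : ℕ) < l' then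
      (1 + C (X : R[X]) * X) * X ^ (j : ℕ) else X ^ (j : ℕ)) (Fin.last l') (X ^ l')
      = fun j : Fin (l' + 1) => if (j : ℕ) < l' then (1 + C (X : R[X]) * X) * X ^ (j : ℕ)
        else X ^ (j : ℕ) := by
    funext j
    by_cases hj : j = Fin.last l'
    · subst hj
      rw [Function.update_self]
      simp
    · rw [Function.update_of_ne hj]
  rw [h5, PSG_tri] at h2
  have h6 := congrArg (fun q : R[X] => q.coeff n) h2
  simp only [coeff_add] at h6
  rw [coeff_X_pow_mul', if_neg (by omega), add_zero] at h6
  rw [Polynomial.coeff_coe, hB, h6, PowerSeries.coeff_mul, Polynomial.coeff_mul]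
  refine sum_congr rfl (fun x hx => ?_)
  rw [Polynomial.coeff_coe, PowerSeries.coeff_mk]
  congr 1
  have hx2 : x.2 ≤ n := by
    have := mem_antidiagonal.1 hx
    omega
  rw [finsetSum_coeff, Finset.sum_eq_single x.2]
  · rw [coeff_X_pow_mul', if_pos le_rfl, Nat.sub_self, coeff_C_zero]
  · intro m _ hm
    rw [coeff_X_pow_mul']
    split_ifs with h
    · rw [coeff_C_ne_zero (by omega)]
    · rfl
  · intro h
    exact absurd (mem_range.2 (by omega)) h

end Pool.Agent.Helper32.CYC
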